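import Pool.Agent.Work.MP_acd137_co.Bound

set_option autoImplicit false

/-!
Condition (ii) does not imply condition (i): for every prime `p ≡ 2 (mod 3)` there is a group `G`
of order `3 p²` whose elements of prime power order have order at most `max 3 p`, while every
graph representing `G` has at least `p² = |G| / 3` vertices.
-/

namespace Pool.Agent.Results.MP_acd137_co.ConverseFails

open scoped ENNReal

/-- The least number `v(G)` of vertices of a finite graph `Γ` whose automorphism group is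
isomorphic to `G` (it would be `∞` if there were no such graph). -/
noncomputable def v (G : Type) [Group G] : ℕ∞ :=
  sInf {m | ∃ n : ℕ, m = (n : ℕ∞) ∧ ∃ Γ : SimpleGraph (Fin n), Nonempty ((Γ ≃g Γ) ≃* G)}

/-- The largest order `c(G)` of an element of `G` whose order is a power of a prime number. -/
noncomputable def c (G : Type) [Group G] : ℕ :=
  sSup {m | ∃ g : G, orderOf g = m ∧ ∃ p k : ℕ, p.Prime ∧ m = p ^ k}

/-- The limit of `f` along the class `𝒢` is zero: for every `ε > 0` only finitely many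
isomorphism types `G ∈ 𝒢` satisfy `f G ≥ ε`. -/
def LimZero (𝒢 : Set FiniteGrp.{0}) (f : FiniteGrp.{0} → ℝ≥0∞) : Prop :=
  ∀ ε : ℝ≥0∞, 0 < ε → ∃ F : Set FiniteGrp.{0}, F.Finite ∧
    ∀ G ∈ 𝒢, ε ≤ f G → ∃ H ∈ F, Nonempty (G ≃* H)

open Pool.Agent.Work.MP_acd137_co in
private theorem exists_group (p : ℕ) (hp : p.Prime) (h3 : p % 3 = 2) :
    ∃ G : FiniteGrp.{0}, Nat.card G = 3 * p ^ 2 ∧ c G ≤ max 3 p ∧ ((p ^ 2 : ℕ) : ℕ∞) ≤ v G := by
  have : Fact p.Prime := ⟨hp⟩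
  refine ⟨FiniteGrp.of (Gp p), card_Gp p, ?_, ?_⟩
  · change sSup {m | ∃ g : Gp p, orderOf g = m ∧ ∃ p k : ℕ, p.Prime ∧ m = p ^ k} ≤ max 3 p
    refine csSup_le' ?_
    rintro m ⟨g, hg, q, k, hq, hm⟩
    have h1 : m ∣ 3 * p := hg ▸ orderOf_dvd_of_pow_eq_one (pow_Gp p g)
    have hp0 : 0 < p := hp.pos
    rcases Nat.eq_zero_or_pos k with hk | hk
    · subst hk
      simp only [pow_zero] at hm
      subst hm
      exact le_max_of_le_left (by norm_num)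
    · have hmp : IsPrimePow m := by
        rw [hm]
        exact hq.isPrimePow.pow hk.ne'
      have hcop : Nat.Coprime 3 p := by
        rw [Nat.Prime.coprime_iff_not_dvd Nat.prime_three]
        omega
      rcases (hcop.isPrimePow_dvd_mul hmp).1 h1 with h | h
      · exact le_max_of_le_left (Nat.le_of_dvd (by norm_num) h)
      · exact le_max_of_le_right (Nat.le_of_dvd hp0 h)
  · change ((p ^ 2 : ℕ) : ℕ∞) ≤
      sInf {m | ∃ n : ℕ, m = (n : ℕ∞) ∧ ∃ Γ : SimpleGraph (Fin n), Nonempty ((Γ ≃g Γ) ≃* Gp p)}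
    refine le_sInf ?_
    rintro m ⟨n, rfl, Γ, ⟨e⟩⟩
    have h1 := main_bound e h3
    rw [Fintype.card_fin] at h1
    exact_mod_cast h1

/-- For every prime `p ≡ 2 (mod 3)` there is a finite group `G` of order `3 p²` with
`c(G) ≤ max 3 p` and `v(G) ≥ p²`; consequently it is not true that for every class of finite
groups `c(G) / |G| → 0` implies `v(G) / |G| → 0`. -/
theorem result :
    (∀ p : ℕ, p.Prime → p % 3 = 2 → ∃ G : FiniteGrp.{0},
      Nat.card G = 3 * p ^ 2 ∧ c G ≤ max 3 p ∧ ((p ^ 2 : ℕ) : ℕ∞) ≤ v G) ∧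
    ¬ ∀ 𝒢 : Set FiniteGrp.{0},
      LimZero 𝒢 (fun G => (c G : ℝ≥0∞) / (Nat.card G : ℝ≥0∞)) →
        LimZero 𝒢 (fun G => ((v G : ℕ∞) : ℝ≥0∞) / (Nat.card G : ℝ≥0∞)) := by
  refine ⟨exists_group, ?_⟩
  intro h
  have hP : ∀ n : ℕ, ∃ p, n < p ∧ p.Prime ∧ p % 3 = 2 := by
    intro n
    obtain ⟨p, hp1, hp2, hp3⟩ := Nat.forall_exists_prime_gt_and_modEq n (q := 3) (a := 2)
      (by norm_num) (by norm_num)
    exact ⟨p, hp1, hp2, hp3⟩
  let P : Set ℕ := {p | p.Prime ∧ p % 3 = 2}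
  have hG : ∀ p : P, ∃ G : FiniteGrp.{0},
      Nat.card G = 3 * (p : ℕ) ^ 2 ∧ c G ≤ max 3 (p : ℕ) ∧ (((p : ℕ) ^ 2 : ℕ) : ℕ∞) ≤ v G :=
    fun p => exists_group p p.2.1 p.2.2
  choose G hG1 hG2 hG3 using hG
  have hcard : ∀ p : P, (Nat.card (G p) : ℝ≥0∞) = 3 * ((p : ℕ) : ℝ≥0∞) ^ 2 := by
    intro p
    rw [hG1]
    push_cast
    ring
  have hlim : LimZero (Set.range G) (fun G => (c G : ℝ≥0∞) / (Nat.card G : ℝ≥0∞)) := by
    intro ε hε
    obtain ⟨N, hN⟩ := ENNReal.exists_inv_nat_lt hε.ne'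
    refine ⟨G '' {p : P | (p : ℕ) ≤ max N 1}, ?_, ?_⟩
    · refine Set.Finite.image _ ?_
      refine Set.Finite.of_injOn (f := fun p : P => (p : ℕ)) (t := Set.Iic (max N 1)) ?_ ?_
        (Set.finite_Iic _)
      · intro p hp
        exact hp
      · exact Subtype.val_injective.injOn
    · rintro _ ⟨p, rfl⟩ hp
      by_cases hpN : (p : ℕ) ≤ max N 1
      · exact ⟨G p, ⟨p, hpN, rfl⟩, ⟨MulEquiv.refl _⟩⟩
      exfalso
      push Not at hpN
      have hpN' : N < (p : ℕ) := lt_of_le_of_lt (le_max_left _ _) hpN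
      have hp0 : (0 : ℕ) < (p : ℕ) := p.2.1.pos
      have h1 : (c (G p) : ℝ≥0∞) ≤ 3 * ((p : ℕ) : ℝ≥0∞) := by
        have : c (G p) ≤ 3 * (p : ℕ) := (hG2 p).trans (max_le (by omega) (by omega))
        exact_mod_cast this
      have hpne : ((p : ℕ) : ℝ≥0∞) ≠ 0 := by exact_mod_cast hp0.ne'
      have hptop : ((p : ℕ) : ℝ≥0∞) ≠ ⊤ := ENNReal.natCast_ne_top _
      have h2 : (c (G p) : ℝ≥0∞) / (Nat.card (G p) : ℝ≥0∞) ≤ ((p : ℕ) : ℝ≥0∞)⁻¹ := by
        rw [hcard]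
        refine ENNReal.div_le_of_le_mul ?_
        refine h1.trans (le_of_eq ?_)
        rw [mul_left_comm, sq, ← mul_assoc (((p : ℕ) : ℝ≥0∞)⁻¹),
          ENNReal.inv_mul_cancel hpne hptop, one_mul]
      have h3 : ((p : ℕ) : ℝ≥0∞)⁻¹ ≤ ((N : ℕ) : ℝ≥0∞)⁻¹ := by
        rw [ENNReal.inv_le_inv]
        exact_mod_cast hpN'.le
      exact absurd (hp.trans (h2.trans h3)) (not_le.2 hN)
  obtain ⟨F, hF, hFc⟩ := h _ hlim (1 / 4) (by
    rw [one_div, ENNReal.inv_pos]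
    exact ENNReal.ofNat_ne_top)
  -- every group `G p` is isomorphic to one in `F`, so its order is bounded
  obtain ⟨B, hB⟩ := (hF.image fun H : FiniteGrp.{0} => Nat.card H).bddAbove
  obtain ⟨p, hBp, hp, hp3⟩ := hP B
  have hpp : (0 : ℕ) < p := hp.pos
  have hbig : (1 / 4 : ℝ≥0∞) ≤
      ((v (G ⟨p, hp, hp3⟩) : ℕ∞) : ℝ≥0∞) / (Nat.card (G ⟨p, hp, hp3⟩) : ℝ≥0∞) := by
    have h1 : ((p : ℝ≥0∞)) ^ 2 ≤ ((v (G ⟨p, hp, hp3⟩) : ℕ∞) : ℝ≥0∞) := by
      have h2 := ENat.toENNReal_mono (hG3 ⟨p, hp, hp3⟩)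
      refine le_trans (le_of_eq ?_) h2
      rw [ENat.toENNReal_coe]
      push_cast
      rfl
    have h0 : (3 * (p : ℝ≥0∞) ^ 2) ≠ 0 := by
      have : (3 * p ^ 2 : ℕ) ≠ 0 := by positivity
      exact_mod_cast this
    have ht : (3 * (p : ℝ≥0∞) ^ 2) ≠ ⊤ := by
      have : ((3 * p ^ 2 : ℕ) : ℝ≥0∞) ≠ ⊤ := ENNReal.natCast_ne_top _
      exact_mod_cast this
    rw [hcard, ENNReal.le_div_iff_mul_le (Or.inl h0) (Or.inl ht)]
    refine le_trans ?_ h1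
    have h4 : (1 / 4 : ℝ≥0∞) * (3 * (p : ℝ≥0∞) ^ 2) ≤ (1 / 4 : ℝ≥0∞) * (4 * (p : ℝ≥0∞) ^ 2) := by
      gcongr
      norm_num
    refine h4.trans (le_of_eq ?_)
    rw [← mul_assoc, one_div, ENNReal.inv_mul_cancel (by norm_num) ENNReal.ofNat_ne_top, one_mul]
  obtain ⟨H, hHF, ⟨e⟩⟩ := hFc _ ⟨⟨p, hp, hp3⟩, rfl⟩ hbig
  have h5 : Nat.card (G ⟨p, hp, hp3⟩) = Nat.card H := Nat.card_congr e.toEquiv
  have h6 : Nat.card H ≤ B := hB ⟨H, hHF, rfl⟩
  rw [hG1] at h5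
  have h7 : (3 : ℕ) * p ^ 2 ≤ B := h5 ▸ h6
  nlinarith

end Pool.Agent.Results.MP_acd137_co.ConverseFails
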